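import Pool.Agent.helper79.SX.Spec

/-!
# Project sx, module BAS: the start of the block sieve
-/

set_option autoImplicit false

open Finset ArithmeticFunction

namespace Pool.Agent.SX

theorem BAS_Pr : Pr 28 = ∅ := by
  ext p
  simp only [Pr, mem_filter, mem_range, notMem_empty, iff_false, not_and]
  intro _ _ h7 h
  have h1 : 7 ^ 10 ≤ p ^ 10 := Nat.pow_le_pow_left h7 10
  have h2 : (2 : ℕ) ^ 28 < 7 ^ 10 := by norm_num
  omega

theorem BAS_seven (p : ℕ) (h : 2 ^ 28 ≤ p ^ 10) : 7 ≤ p := by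
  by_contra hcon
  have h1 : p ^ 10 ≤ 6 ^ 10 := Nat.pow_le_pow_left (by omega) 10
  have h2 : (6 : ℕ) ^ 10 < 2 ^ 28 := by norm_num
  omega

theorem BAS_g (D : Finset ℕ) (hD : ∀ p ∈ D, 7 ≤ p) : (2 : ℝ) ^ D.card = g D * ∏ p ∈ D, (p : ℝ) := by
  rw [g, ← Finset.prod_mul_distrib, ← Finset.prod_const]
  refine Finset.prod_congr rfl (fun p hp => ?_)
  have h7 := hD p hp
  have : (p : ℝ) ≠ 0 := by
    have : p ≠ 0 := by omega
    exact_mod_cast this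
  rw [div_mul_cancel₀ _ this]

theorem BAS_main (B : ℕ) (v : ℝ) (hv : 0 ≤ v) (hB : 1 ≤ v ^ 10 * 2 ^ B) (A : Finset ℕ) (X : ℝ) (hA : Dens A X)
    (D : Finset ℕ) (hD : ∀ p ∈ D, p.Prime ∧ 2 ^ 28 ≤ p ^ 10)
    (hX : (2 : ℝ) ^ B * (∏ p ∈ D, (p : ℝ)) ^ 10 ≤ X ^ 10) :
    |(S A ∅ D : ℝ) - X * g D| ≤ X * g D * v := by
  have h7 : ∀ p ∈ D, 7 ≤ p := fun p hp => BAS_seven p (hD p hp).2
  have hX0 : 0 < X := hA.1
  have hprod0 : 0 ≤ ∏ p ∈ D, (p : ℝ) := Finset.prod_nonneg (fun p _ => Nat.cast_nonneg p)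
  have hg0 : 0 ≤ g D := by
    rw [g]
    exact Finset.prod_nonneg (fun p _ => by positivity)
  have h1 := hA.2 D (fun p hp => ⟨(hD p hp).1, h7 p hp⟩)
  rw [BAS_g D h7] at h1
  have h2 : (∏ p ∈ D, (p : ℝ)) ≤ v * X := by
    have h3 : (∏ p ∈ D, (p : ℝ)) ^ 10 ≤ (v * X) ^ 10 := by
      calc (∏ p ∈ D, (p : ℝ)) ^ 10 = 1 * (∏ p ∈ D, (p : ℝ)) ^ 10 := (one_mul _).symm
        _ ≤ (v ^ 10 * 2 ^ B) * (∏ p ∈ D, (p : ℝ)) ^ 10 :=
            mul_le_mul_of_nonneg_right hB (by positivity)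
        _ = v ^ 10 * (2 ^ B * (∏ p ∈ D, (p : ℝ)) ^ 10) := by ring
        _ ≤ v ^ 10 * X ^ 10 := mul_le_mul_of_nonneg_left hX (by positivity)
        _ = (v * X) ^ 10 := by ring
    exact (pow_le_pow_iff_left₀ hprod0 (by positivity) (by norm_num)).mp h3
  calc |(S A ∅ D : ℝ) - X * g D| ≤ g D * ∏ p ∈ D, (p : ℝ) := h1
    _ ≤ g D * (v * X) := mul_le_mul_of_nonneg_left h2 hg0
    _ = X * g D * v := by ring

theorem BAS : BAS_stmt := by
  intro B v hv hB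
  have hV : V (∅ : Finset ℕ) = 1 := by simp [V]
  refine ⟨?_, ?_⟩
  · intro A X hA D hD hX
    rw [BAS_Pr, hV, mul_one]
    have h := (abs_le.mp (BAS_main B v hv hB A X hA D hD hX)).2
    linarith
  · intro A X hA D hD hX
    rw [BAS_Pr, hV, mul_one]
    have h := (abs_le.mp (BAS_main B v hv hB A X hA D hD hX)).1
    linarith

end Pool.Agent.SX
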